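import Pool.Agent.W957.CH.StmB

/-! Project CH, part CORE1: vertices of `D` on paths between two fixed vertices. -/

set_option autoImplicit false

namespace Pool.Agent.W753.CH.CORE1

open Finset Pool.Agent.W957.CH

section

variable {V : Type} {G : SimpleGraph V}

theorem chain_rev {l : List V} (h : l.IsChain G.Adj) : l.reverse.IsChain G.Adj := by
  rw [List.isChain_reverse]
  exact h.imp (fun _ _ h => h.symm)

theorem split2 {l : List V} {a b : V} (ha : a ∈ l) (hb : b ∈ l) (hab : a ≠ b) :
    (∃ A B C, l = A ++ a :: (B ++ b :: C)) ∨ (∃ A B C, l = A ++ b :: (B ++ a :: C)) := by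
  obtain ⟨s, t, rfl⟩ := List.append_of_mem ha
  rw [List.mem_append, List.mem_cons] at hb
  rcases hb with hb | hb | hb
  · obtain ⟨A, B, rfl⟩ := List.append_of_mem hb
    right
    exact ⟨A, B, t, by simp⟩
  · exact absurd hb.symm hab
  · obtain ⟨A, B, rfl⟩ := List.append_of_mem hb
    left
    exact ⟨s, A, B, rfl⟩

theorem split_first (p : V → Prop) (l : List V) (h : ∃ x ∈ l, p x) :
    ∃ A r B, l = A ++ r :: B ∧ p r ∧ ∀ x ∈ A, ¬ p x := by
  induction l with
  | nil => simp at h
  | cons a t ih =>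
    by_cases ha : p a
    · exact ⟨[], a, t, rfl, ha, by simp⟩
    · obtain ⟨x, hx, hpx⟩ := h
      rw [List.mem_cons] at hx
      rcases hx with rfl | hx
      · exact absurd hpx ha
      · obtain ⟨A, r, B, h1, h2, h3⟩ := ih ⟨x, hx, hpx⟩
        refine ⟨a :: A, r, B, by rw [h1]; rfl, h2, ?_⟩
        intro y hy
        rw [List.mem_cons] at hy
        rcases hy with rfl | hy
        · exact ha
        · exact h3 y hy

theorem split_last (p : V → Prop) (l : List V) (h : ∃ x ∈ l, p x) :
    ∃ A r B, l = A ++ r :: B ∧ p r ∧ ∀ x ∈ B, ¬ p x := by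
  obtain ⟨A, r, B, h1, h2, h3⟩ := split_first p l.reverse (by
    obtain ⟨x, hx, hp⟩ := h
    exact ⟨x, List.mem_reverse.2 hx, hp⟩)
  refine ⟨B.reverse, r, A.reverse, ?_, h2, fun x hx => h3 x (List.mem_reverse.1 hx)⟩
  rw [← List.reverse_reverse l, h1]
  simp

/-- connection inside `S` -/
def Rch (G : SimpleGraph V) (S : V → Prop) : V → V → Prop :=
  Relation.ReflTransGen (fun a b => G.Adj a b ∧ S a ∧ S b)

theorem rch_list (S : V → Prop) (l : List V) (hc : l.IsChain G.Adj) (hS : ∀ x ∈ l, S x) :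
    ∀ x ∈ l, ∀ y ∈ l, Rch G S x y := by
  induction l with
  | nil => intro x hx; simp at hx
  | cons a t ih =>
    rw [List.isChain_cons] at hc
    have ih' := ih hc.2 (fun x hx => hS x (List.mem_cons_of_mem _ hx))
    cases t with
    | nil =>
      intro x hx y hy
      simp at hx hy
      rw [hx, hy]
      exact Relation.ReflTransGen.refl
    | cons b t =>
      have hab : G.Adj a b := hc.1 b (by simp)
      have hSa : S a := hS a (by simp)
      have hSb : S b := hS b (by simp)
      have h1 : Rch G S a b := Relation.ReflTransGen.single ⟨hab, hSa, hSb⟩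
      have h2 : Rch G S b a := Relation.ReflTransGen.single ⟨hab.symm, hSb, hSa⟩
      intro x hx y hy
      rw [List.mem_cons] at hx hy
      rcases hx with rfl | hx <;> rcases hy with rfl | hy
      · exact Relation.ReflTransGen.refl
      · exact Relation.ReflTransGen.trans h1 (ih' b (by simp) y hy)
      · exact Relation.ReflTransGen.trans (ih' x hx b (by simp)) h2
      · exact ih' x hx y hy

theorem rch_path (S Z : V → Prop) (z : V) (hz : Z z) (y : V) (h : Rch G S y z) (hSy : S y) :
    ∃ (Y : List V) (z0 : V), Z z0 ∧ (∀ x ∈ Y, ¬ Z x) ∧ (Y ++ [z0]).Nodup ∧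
      (Y ++ [z0]).IsChain G.Adj ∧ (Y ++ [z0]).head? = some y ∧ ∀ x ∈ Y ++ [z0], S x := by
  unfold Rch at h
  induction h using Relation.ReflTransGen.head_induction_on with
  | refl => exact ⟨[], z, hz, by simp, by simp, by simp, by simp, by simpa using hSy⟩
  | @head a c hab _ ih =>
    obtain ⟨Y, z0, h1, h2, h3, h4, h5, h6⟩ := ih hab.2.2
    by_cases ha : Z a
    · exact ⟨[], a, ha, by simp, by simp, by simp, by simp, by simpa using hSy⟩
    · by_cases haY : a ∈ Y
      · obtain ⟨A, B, rfl⟩ := List.append_of_mem haY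
        have h7 : (A ++ a :: B) ++ [z0] = A ++ (a :: B ++ [z0]) := by simp
        rw [h7] at h3 h4 h6
        refine ⟨a :: B, z0, h1, fun x hx => h2 x (List.mem_append_right _ hx),
          (List.nodup_append.1 h3).2.1, h4.right_of_append, by simp, ?_⟩
        exact fun x hx => h6 x (List.mem_append_right _ hx)
      · refine ⟨a :: Y, z0, h1, ?_, ?_, ?_, by simp, ?_⟩
        · intro x hx
          rw [List.mem_cons] at hx
          rcases hx with rfl | hx
          · exact ha
          · exact h2 x hx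
        · rw [List.cons_append, List.nodup_cons]
          refine ⟨?_, h3⟩
          rw [List.mem_append, List.mem_singleton]
          rintro (h | h)
          · exact haY h
          · rw [h] at ha
            exact ha h1
        · rw [List.cons_append, List.isChain_cons]
          refine ⟨?_, h4⟩
          intro y hy
          rw [h5] at hy
          simp at hy
          rw [← hy]
          exact hab.1
        · intro x hx
          rw [List.cons_append, List.mem_cons] at hx
          rcases hx with rfl | hx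
          · exact hSy
          · exact h6 x hx

/-- the betweenness hypothesis -/
def Btw (G : SimpleGraph V) (W D : Finset V) (d : V → ℕ) : Prop :=
  ∀ v ∈ D, ∀ w ∈ D, v ≠ w → ∀ l, PF G v w l → (∀ x ∈ l, x ∈ W) →
    ∀ u ∈ l, u ∈ D → u ≠ v → u ≠ w → (d v < d u ∧ d u < d w) ∨ (d w < d u ∧ d u < d v)

theorem L2 (W D : Finset V) (d : V → ℕ) (H1 : Btw G W D d) (y z0 v v' : V) (Y A B C : List V)
    (hy : y ∈ D) (hv : v ∈ D) (hv' : v' ∈ D) (hyv : y ≠ v) (hyv' : y ≠ v')
    (hnd : (Y ++ z0 :: (A ++ v :: (B ++ v' :: C))).Nodup)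
    (hc1 : (Y ++ [z0]).IsChain G.Adj)
    (hc2 : (z0 :: (A ++ v :: (B ++ v' :: (C ++ [z0])))).IsChain G.Adj)
    (hh : (Y ++ [z0]).head? = some y)
    (hW : ∀ x ∈ Y ++ z0 :: (A ++ v :: (B ++ v' :: C)), x ∈ W) : False := by
  have hvv' : v ≠ v' := by
    intro h
    rw [h] at hnd
    have h1 : (v' :: (B ++ v' :: C)).Nodup := by
      have h2 := (List.nodup_append.1 hnd).2.1
      rw [List.nodup_cons] at h2
      exact (List.nodup_append.1 h2.2).2.1
    rw [List.nodup_cons] at h1
    exact h1.1 (by simp)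
  have hhd : ∀ l : List V, (Y ++ z0 :: l).head? = some y := by
    intro l
    cases Y with
    | nil => simpa using hh
    | cons a Y => simpa using hh
  -- first path
  have hc3 : (z0 :: (A ++ v :: (B ++ [v']))).IsChain G.Adj := by
    have h1 : z0 :: (A ++ v :: (B ++ v' :: (C ++ [z0]))) =
        (z0 :: (A ++ v :: B)) ++ v' :: (C ++ [z0]) := by simp
    rw [h1, List.isChain_split] at hc2
    have h2 : (z0 :: (A ++ v :: B)) ++ [v'] = z0 :: (A ++ v :: (B ++ [v'])) := by simp
    rw [h2] at hc2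
    exact hc2.1
  have hP1 : PF G y v' (Y ++ z0 :: (A ++ v :: (B ++ [v']))) := by
    refine ⟨⟨?_, ?_⟩, hhd _, ?_⟩
    · refine hnd.sublist ?_
      refine List.Sublist.append_left (List.Sublist.cons_cons _ (List.Sublist.append_left
        (List.Sublist.cons_cons _ (List.Sublist.append_left (List.Sublist.cons_cons _ ?_) _)) _)) _
      exact List.nil_sublist _
    · rw [List.isChain_split]
      exact ⟨hc1, hc3⟩
    · have h1 : Y ++ z0 :: (A ++ v :: (B ++ [v'])) = (Y ++ z0 :: (A ++ v :: B)) ++ [v'] := by simp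
      rw [h1, List.getLast?_concat]
  have hb1 := H1 y hy v' hv' hyv' _ hP1 (by
    intro x hx
    apply hW
    simp only [List.mem_append, List.mem_cons, List.not_mem_nil, or_false] at hx ⊢
    tauto) v (by simp) hv hyv.symm hvv'
  -- second path
  have hc4 : (z0 :: (C.reverse ++ v' :: (B.reverse ++ [v]))).IsChain G.Adj := by
    have h1 : z0 :: (A ++ v :: (B ++ v' :: (C ++ [z0]))) =
        (z0 :: A) ++ v :: (B ++ v' :: (C ++ [z0])) := by simp
    rw [h1, List.isChain_split] at hc2
    have h2 := chain_rev hc2.2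
    have h3 : (v :: (B ++ v' :: (C ++ [z0]))).reverse =
        z0 :: (C.reverse ++ v' :: (B.reverse ++ [v])) := by simp
    rw [h3] at h2
    exact h2
  have hP2 : PF G y v (Y ++ z0 :: (C.reverse ++ v' :: (B.reverse ++ [v]))) := by
    refine ⟨⟨?_, ?_⟩, hhd _, ?_⟩
    · have h1 : (Y ++ z0 :: (v :: (B ++ v' :: C))).Nodup := by
        refine hnd.sublist ?_
        refine List.Sublist.append_left (List.Sublist.cons_cons _ ?_) _
        exact List.sublist_append_right _ _
      refine (List.Perm.nodup_iff ?_).1 h1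
      refine List.Perm.append_left _ (List.Perm.cons _ ?_)
      have h2 : C.reverse ++ v' :: (B.reverse ++ [v]) = (v :: (B ++ v' :: C)).reverse := by simp
      rw [h2]
      exact (List.reverse_perm _).symm
    · rw [List.isChain_split]
      exact ⟨hc1, hc4⟩
    · have h1 : Y ++ z0 :: (C.reverse ++ v' :: (B.reverse ++ [v])) =
          (Y ++ z0 :: (C.reverse ++ v' :: B.reverse)) ++ [v] := by simp
      rw [h1, List.getLast?_concat]
  have hb2 := H1 y hy v hv hyv _ hP2 (by
    intro x hx
    apply hW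
    simp only [List.mem_append, List.mem_cons, List.not_mem_nil, or_false,
      List.mem_reverse] at hx ⊢
    tauto) v' (by simp) hv' hyv'.symm hvv'.symm
  omega

/-- a third vertex of `D` is not connected to a cycle with two vertices of `D` -/
theorem cyc_false (W D : Finset V) (d : V → ℕ) (H1 : Btw G W D d) (h : V) (T : List V)
    (hnd : (h :: T).Nodup) (hch : (h :: (T ++ [h])).IsChain G.Adj) (hTW : ∀ x ∈ h :: T, x ∈ W)
    (v v' : V) (hv : v ∈ D) (hv' : v' ∈ D) (hvv' : v ≠ v') (hvT : v ∈ h :: T)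
    (hvT' : v' ∈ h :: T) (y z : V) (hy : y ∈ D) (hyv : y ≠ v) (hyv' : y ≠ v') (hyW : y ∈ W)
    (hz : z ∈ h :: T) (hr : Rch G (fun x => x ∈ W ∧ x ≠ v ∧ x ≠ v') y z) : False := by
  obtain ⟨Y, z0, h1, h2, h3, h4, h5, h6⟩ := rch_path (fun x => x ∈ W ∧ x ≠ v ∧ x ≠ v')
    (fun x => x ∈ h :: T) z hz y hr ⟨hyW, hyv, hyv'⟩
  have hz0 := h6 z0 (by simp)
  -- rotate
  have hrot : ∃ Z : List V, (z0 :: Z).Perm (h :: T) ∧ (z0 :: (Z ++ [z0])).IsChain G.Adj := by
    obtain ⟨P, Q, hPQ⟩ := List.append_of_mem h1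
    cases P with
    | nil =>
      simp at hPQ
      obtain ⟨e1, e2⟩ := hPQ
      refine ⟨T, ?_, ?_⟩
      · rw [← e1]
      · rw [← e1]
        exact hch
    | cons p P =>
      simp only [List.cons_append, List.cons.injEq] at hPQ
      obtain ⟨e1, e2⟩ := hPQ
      refine ⟨Q ++ (p :: P), ?_, ?_⟩
      · rw [e2, e1]
        have e3 : z0 :: (Q ++ p :: P) = (z0 :: Q) ++ (p :: P) := by simp
        have e4 : p :: (P ++ z0 :: Q) = (p :: P) ++ (z0 :: Q) := by simp
        rw [e3, e4]
        exact List.perm_append_comm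
      · rw [e2, e1] at hch
        have e5 : p :: (P ++ z0 :: Q ++ [p]) = (p :: P) ++ z0 :: (Q ++ [p]) := by simp
        rw [e5, List.isChain_split] at hch
        have e6 : z0 :: (Q ++ p :: P ++ [z0]) = (z0 :: Q) ++ p :: (P ++ [z0]) := by simp
        rw [e6, List.isChain_split]
        exact ⟨hch.2, hch.1⟩
  obtain ⟨Z, hZp, hZc⟩ := hrot
  have hZnd : (z0 :: Z).Nodup := hZp.nodup_iff.2 hnd
  have hYZ : (Y ++ z0 :: Z).Nodup := by
    rw [List.nodup_append]
    refine ⟨(List.nodup_append.1 h3).1, hZnd, ?_⟩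
    intro a ha b hb hab
    apply h2 a ha
    rw [hab]
    exact hZp.mem_iff.1 hb
  have hYW : ∀ x ∈ Y ++ z0 :: Z, x ∈ W := by
    intro x hx
    rw [List.mem_append] at hx
    rcases hx with hx | hx
    · exact (h6 x (List.mem_append_left _ hx)).1
    · exact hTW x (hZp.mem_iff.1 hx)
  have hvZ : v ∈ Z := by
    have := hZp.mem_iff.2 hvT
    rw [List.mem_cons] at this
    rcases this with h | h
    · exact absurd h.symm hz0.2.1
    · exact h
  have hvZ' : v' ∈ Z := by
    have := hZp.mem_iff.2 hvT'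
    rw [List.mem_cons] at this
    rcases this with h | h
    · exact absurd h.symm hz0.2.2
    · exact h
  rcases split2 hvZ hvZ' hvv' with ⟨A, B, C, rfl⟩ | ⟨A, B, C, rfl⟩
  · exact L2 W D d H1 y z0 v v' Y A B C hy hv hv' hyv hyv' hYZ h4 (by simpa using hZc) h5 hYW
  · exact L2 W D d H1 y z0 v' v Y A B C hy hv' hv hyv' hyv hYZ h4 (by simpa using hZc) h5 hYW

theorem mf {α : Type} (p : α → Prop) (inst : DecidablePred p) (s : Finset α) (a : α) :
    a ∈ @Finset.filter α p inst s ↔ a ∈ s ∧ p a := Finset.mem_filter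

open Classical in
/-- number of vertices of `D` on `l` -/
noncomputable def cnt (D : Finset V) (l : List V) : ℕ := (D.filter (fun v => v ∈ l)).card

theorem core (W D : Finset V) (d : V → ℕ) (H1 : Btw G W D d) (hDW : D ⊆ W) (t1 t2 : V)
    (R : List V) (hR : PF G t1 t2 R) (hRW : ∀ x ∈ R, x ∈ W)
    (hmax : ∀ l, PF G t1 t2 l → (∀ x ∈ l, x ∈ W) → cnt D l ≤ cnt D R)
    (v : V) (hvD : v ∈ D) (hvR : v ∉ R) (ra rb : V) (R0 R1 R2 E : List V)
    (hRe : R = R0 ++ ra :: (R1 ++ rb :: R2)) (hEc : (ra :: (E ++ [rb])).IsChain G.Adj)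
    (hEn : E.Nodup) (hER : ∀ x ∈ E, x ∉ R) (hEW : ∀ x ∈ E, x ∈ W) (hvE : v ∈ E) :
    ∃ v', ∀ u ∈ D, (∃ l, PF G t1 t2 l ∧ (∀ x ∈ l, x ∈ W) ∧ u ∈ l) → u = v ∨ u = v' := by
  classical
  have hRn : R.Nodup := hR.1.1
  have hRc : R.IsChain G.Adj := hR.1.2
  -- the new path
  have hN : PF G t1 t2 (R0 ++ ra :: (E ++ rb :: R2)) := by
    refine ⟨⟨?_, ?_⟩, ?_, ?_⟩
    · have h1 : (R0 ++ ra :: (rb :: R2)).Nodup := by
        rw [hRe] at hRn
        refine hRn.sublist ?_
        exact List.Sublist.append_left (List.Sublist.cons_cons _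
          (List.sublist_append_right _ _)) _
      have h2 : (E ++ (R0 ++ ra :: (rb :: R2))).Nodup := by
        rw [List.nodup_append]
        refine ⟨hEn, h1, ?_⟩
        intro a ha b hb hab
        apply hER a ha
        rw [hab, hRe]
        simp only [List.mem_append, List.mem_cons] at hb ⊢
        tauto
      refine (List.Perm.nodup_iff ?_).1 h2
      have h3 : R0 ++ ra :: (E ++ rb :: R2) = (R0 ++ [ra]) ++ (E ++ rb :: R2) := by simp
      have h4 : E ++ (R0 ++ ra :: (rb :: R2)) = E ++ ((R0 ++ [ra]) ++ (rb :: R2)) := by simp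
      rw [h3, h4, ← List.append_assoc, ← List.append_assoc (R0 ++ [ra])]
      exact List.Perm.append_right _ List.perm_append_comm
    · rw [List.isChain_split]
      rw [hRe, List.isChain_split] at hRc
      refine ⟨hRc.1, ?_⟩
      have hRc2 := hRc.2
      have h3 : ra :: (R1 ++ rb :: R2) = (ra :: R1) ++ rb :: R2 := by simp
      rw [h3, List.isChain_split] at hRc2
      have h4 : ra :: (E ++ rb :: R2) = (ra :: E) ++ rb :: R2 := by simp
      rw [h4, List.isChain_split]
      exact ⟨by simpa using hEc, hRc2.2⟩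
    · have h1 := hR.2.1
      rw [hRe] at h1
      cases R0 with
      | nil => simpa using h1
      | cons a R0 => simpa using h1
    · have h1 := hR.2.2
      rw [hRe] at h1
      have h3 : R0 ++ ra :: (R1 ++ rb :: R2) = (R0 ++ ra :: R1) ++ rb :: R2 := by simp
      have h4 : R0 ++ ra :: (E ++ rb :: R2) = (R0 ++ ra :: E) ++ rb :: R2 := by simp
      rw [h3, List.getLast?_append_cons] at h1
      rw [h4, List.getLast?_append_cons]
      exact h1
  have hNW : ∀ x ∈ R0 ++ ra :: (E ++ rb :: R2), x ∈ W := by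
    intro x hx
    simp only [List.mem_append, List.mem_cons] at hx
    by_cases hxE : x ∈ E
    · exact hEW x hxE
    · apply hRW
      rw [hRe]
      simp only [List.mem_append, List.mem_cons]
      tauto
  have hNmax := hmax _ hN hNW
  -- a vertex of `D` on the replaced part
  have hv' : ∃ v' ∈ R1, v' ∈ D := by
    by_contra hcon
    push Not at hcon
    have hlt : cnt D R < cnt D (R0 ++ ra :: (E ++ rb :: R2)) := by
      unfold cnt
      apply Finset.card_lt_card
      rw [Finset.ssubset_iff_of_subset]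
      · refine ⟨v, ?_, ?_⟩
        · rw [Finset.mem_filter]
          refine ⟨hvD, ?_⟩
          simp only [List.mem_append, List.mem_cons]
          tauto
        · rw [Finset.mem_filter]
          exact fun h => hvR h.2
      · intro x hx
        rw [Finset.mem_filter] at hx ⊢
        refine ⟨hx.1, ?_⟩
        have h1 := hx.2
        have h2 : x ∉ R1 := fun h => hcon x h hx.1
        rw [hRe] at h1
        simp only [List.mem_append, List.mem_cons] at h1 ⊢
        tauto
    omega
  obtain ⟨v', hv'R1, hv'D⟩ := hv'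
  have hv'R : v' ∈ R := by
    rw [hRe]
    simp only [List.mem_append, List.mem_cons]
    tauto
  have hvv' : v ≠ v' := fun h => hvR (by rw [h]; exact hv'R)
  -- the cycle
  have hcn : (ra :: (E ++ rb :: R1.reverse)).Nodup := by
    have h1 : (ra :: (rb :: R1.reverse)).Nodup := by
      rw [hRe] at hRn
      have h2 : (ra :: (R1 ++ rb :: R2)).Nodup := (List.nodup_append.1 hRn).2.1
      have h3 : (ra :: (R1 ++ [rb])).Nodup := h2.sublist (List.Sublist.cons_cons _
        (List.Sublist.append_left (List.Sublist.cons_cons _ (List.nil_sublist _)) _))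
      refine (List.Perm.nodup_iff ?_).1 h3
      refine List.Perm.cons _ ?_
      have h4 : rb :: R1.reverse = (R1 ++ [rb]).reverse := by simp
      rw [h4]
      exact (List.reverse_perm _).symm
    have h2 : (E ++ (ra :: (rb :: R1.reverse))).Nodup := by
      rw [List.nodup_append]
      refine ⟨hEn, h1, ?_⟩
      intro a ha b hb hab
      apply hER a ha
      rw [hab, hRe]
      simp only [List.mem_append, List.mem_cons, List.mem_reverse] at hb ⊢
      tauto
    exact (List.Perm.nodup_iff List.perm_middle).1 h2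
  have hcc : (ra :: ((E ++ rb :: R1.reverse) ++ [ra])).IsChain G.Adj := by
    have h1 : ra :: ((E ++ rb :: R1.reverse) ++ [ra]) = (ra :: E) ++ rb :: (R1.reverse ++ [ra]) := by
      simp
    rw [h1, List.isChain_split]
    refine ⟨by simpa using hEc, ?_⟩
    have h2 : rb :: (R1.reverse ++ [ra]) = (ra :: (R1 ++ [rb])).reverse := by simp
    rw [h2]
    apply chain_rev
    rw [hRe, List.isChain_split] at hRc
    have hRc2 := hRc.2
    have h3 : ra :: (R1 ++ rb :: R2) = (ra :: R1) ++ rb :: R2 := by simp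
    rw [h3, List.isChain_split] at hRc2
    simpa using hRc2.1
  have hcW : ∀ x ∈ ra :: (E ++ rb :: R1.reverse), x ∈ W := by
    intro x hx
    by_cases hxE : x ∈ E
    · exact hEW x hxE
    · apply hRW
      rw [hRe]
      simp only [List.mem_append, List.mem_cons, List.mem_reverse] at hx ⊢
      tauto
  have hfin : ∀ y z, y ∈ D → y ≠ v → y ≠ v' → z ∈ ra :: (E ++ rb :: R1.reverse) →
      Rch G (fun x => x ∈ W ∧ x ≠ v ∧ x ≠ v') y z → False := by
    intro y z hy hyv hyv' hz hr
    refine cyc_false W D d H1 ra (E ++ rb :: R1.reverse) hcn hcc hcW v v' hvD hv'D hvv' ?_ ?_ y z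
      hy hyv hyv' (hDW hy) hz hr
    · simp only [List.mem_append, List.mem_cons]
      tauto
    · simp only [List.mem_append, List.mem_cons, List.mem_reverse]
      tauto
  -- parts of `R` avoiding `v` and `v'`
  have hR0 : ∀ x ∈ R0 ++ [ra], x ∈ W ∧ x ≠ v ∧ x ≠ v' := by
    intro x hx
    have hxR : x ∈ R := by
      rw [hRe]
      simp only [List.mem_append, List.mem_cons, List.not_mem_nil, or_false] at hx ⊢
      tauto
    refine ⟨hRW x hxR, fun h => hvR (by rw [← h]; exact hxR), ?_⟩
    intro h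
    rw [hRe] at hRn
    have h1 : R0 ++ ra :: (R1 ++ rb :: R2) = (R0 ++ [ra]) ++ (R1 ++ rb :: R2) := by simp
    rw [h1, List.nodup_append] at hRn
    exact hRn.2.2 x hx v' (List.mem_append_left _ hv'R1) h
  have hR2 : ∀ x ∈ rb :: R2, x ∈ W ∧ x ≠ v ∧ x ≠ v' := by
    intro x hx
    have hxR : x ∈ R := by
      rw [hRe]
      simp only [List.mem_append, List.mem_cons] at hx ⊢
      tauto
    refine ⟨hRW x hxR, fun h => hvR (by rw [← h]; exact hxR), ?_⟩
    intro h
    rw [hRe] at hRn
    have h1 : R0 ++ ra :: (R1 ++ rb :: R2) = (R0 ++ ra :: R1) ++ (rb :: R2) := by simp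
    rw [h1, List.nodup_append] at hRn
    exact hRn.2.2 v' (by simp [hv'R1]) x hx h.symm
  have hcR0 : (R0 ++ [ra]).IsChain G.Adj := by
    rw [hRe, List.isChain_split] at hRc
    exact hRc.1
  have hcR2 : (rb :: R2).IsChain G.Adj := by
    rw [hRe, List.isChain_split] at hRc
    have hRc2 := hRc.2
    have h3 : ra :: (R1 ++ rb :: R2) = (ra :: R1) ++ rb :: R2 := by simp
    rw [h3, List.isChain_split] at hRc2
    exact hRc2.2
  have hrefl : ∀ y, Rch G (fun x => x ∈ W ∧ x ≠ v ∧ x ≠ v') y y :=
    fun y => Relation.ReflTransGen.refl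
  -- `R` contains one vertex of `D` only
  have hone : ∀ y ∈ R, y ∈ D → y = v' := by
    intro y hyR hyD
    by_contra hyv'
    have hyv : y ≠ v := fun h => hvR (by rw [← h]; exact hyR)
    rw [hRe] at hyR
    simp only [List.mem_append, List.mem_cons] at hyR
    rcases hyR with h | h | h | h | h
    · exact hfin y ra hyD hyv hyv' (by simp)
        (rch_list _ (R0 ++ [ra]) hcR0 hR0 y (by simp [h]) ra (by simp))
    · exact hfin y y hyD hyv hyv' (by simp [h]) (hrefl y)
    · exact hfin y y hyD hyv hyv' (by simp [h]) (hrefl y)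
    · exact hfin y y hyD hyv hyv' (by simp [h]) (hrefl y)
    · exact hfin y rb hyD hyv hyv' (by simp)
        (rch_list _ (rb :: R2) hcR2 hR2 y (by simp [h]) rb (by simp))
  have hc1 : cnt D R ≤ 1 := by
    unfold cnt
    rw [Finset.card_le_one]
    intro a ha b hb
    rw [Finset.mem_filter] at ha hb
    rw [hone a ha.2 ha.1, hone b hb.2 hb.1]
  refine ⟨v', ?_⟩
  rintro u huD ⟨l, hl, hlW, hul⟩
  by_contra hcon
  push Not at hcon
  have hcl : cnt D l ≤ 1 := (hmax l hl hlW).trans hc1
  have honel : ∀ a ∈ l, a ∈ D → a = u := by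
    intro a ha haD
    unfold cnt at hcl
    rw [Finset.card_le_one] at hcl
    exact hcl a (Finset.mem_filter.2 ⟨haD, ha⟩) u (Finset.mem_filter.2 ⟨huD, hul⟩)
  have hlS : ∀ x ∈ l, x ∈ W ∧ x ≠ v ∧ x ≠ v' := by
    intro x hx
    refine ⟨hlW x hx, ?_, ?_⟩
    · intro h
      rw [h] at hx
      exact hcon.1 (honel v hx hvD).symm
    · intro h
      rw [h] at hx
      exact hcon.2 (honel v' hx hv'D).symm
  have ht1l : t1 ∈ l := List.mem_of_mem_head? (by rw [hl.2.1]; rfl)
  have ht1R : t1 ∈ R0 ++ [ra] := by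
    have h1 := hR.2.1
    rw [hRe] at h1
    cases R0 with
    | nil =>
      simp at h1
      simp [h1]
    | cons a R0 =>
      simp at h1
      simp [h1]
  have hr1 := rch_list (G := G) _ l hl.1.2 hlS u hul t1 ht1l
  have hr2 := rch_list (G := G) _ (R0 ++ [ra]) hcR0 hR0 t1 ht1R ra (by simp)
  exact hfin u ra huD hcon.1 hcon.2 (by simp) (Relation.ReflTransGen.trans hr1 hr2)

end

theorem t_CORE1 : S_CORE1 := by
  intro V _ G W D d M t1 t2 hDW ht1 ht2 hne hM H1 H2
  classical
  have H1' : Btw G W D d := H1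
  have H2' : ∀ l, Pth G l → (∀ x ∈ l, x ∈ W) → cnt D l ≤ M := by
    intro l h1 h2
    refine le_trans (Finset.card_le_card ?_) (H2 l h1 h2)
    intro x hx
    rw [mf] at hx ⊢
    exact hx
  by_cases hex : ∃ l, PF G t1 t2 l ∧ ∀ x ∈ l, x ∈ W
  · -- a path with the maximal number of vertices of `D`
    have hmax : ∃ R, PF G t1 t2 R ∧ (∀ x ∈ R, x ∈ W) ∧
        ∀ l, PF G t1 t2 l → (∀ x ∈ l, x ∈ W) → cnt D l ≤ cnt D R := by
      let A : Set ℕ := {k | ∃ l, PF G t1 t2 l ∧ (∀ x ∈ l, x ∈ W) ∧ k = cnt D l}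
      have hAne : A.Nonempty := by
        obtain ⟨l, h1, h2⟩ := hex
        exact ⟨cnt D l, l, h1, h2, rfl⟩
      have hAb : BddAbove A := by
        refine ⟨M, ?_⟩
        rintro k ⟨l, h1, h2, rfl⟩
        exact H2' l h1.1 h2
      obtain ⟨R, h1, h2, h3⟩ := Nat.sSup_mem hAne hAb
      refine ⟨R, h1, h2, ?_⟩
      intro l h4 h5
      rw [← h3]
      exact le_csSup hAb ⟨l, h4, h5, rfl⟩
    obtain ⟨R, hR, hRW, hRmax⟩ := hmax
    by_cases hall : ∀ v ∈ D, (∃ l, PF G t1 t2 l ∧ (∀ x ∈ l, x ∈ W) ∧ v ∈ l) → v ∈ R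
    · refine le_trans (Finset.card_le_card ?_) (H2' R hR.1 hRW)
      intro x hx
      rw [mf] at hx ⊢
      exact ⟨hx.1, hall x hx.1 hx.2⟩
    · push Not at hall
      obtain ⟨v, hvD, ⟨R', hR', hR'W, hvR'⟩, hvR⟩ := hall
      have ht1R : t1 ∈ R := List.mem_of_mem_head? (by rw [hR.2.1]; rfl)
      have ht2R : t2 ∈ R := List.mem_of_getLast? (by rw [hR.2.2])
      obtain ⟨P, Q, hPQ⟩ := List.append_of_mem hvR'
      have hv1 : v ≠ t1 := fun h => hvR (by rw [h]; exact ht1R)
      have hv2 : v ≠ t2 := fun h => hvR (by rw [h]; exact ht2R)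
      have hPt : t1 ∈ P := by
        have h1 := hR'.2.1
        rw [hPQ] at h1
        cases P with
        | nil =>
          simp at h1
          exact absurd h1 hv1
        | cons a P =>
          simp at h1
          simp [h1]
      have hQt : t2 ∈ Q := by
        have h1 := hR'.2.2
        rw [hPQ, List.getLast?_append_cons] at h1
        cases Q with
        | nil =>
          simp at h1
          exact absurd h1 hv2
        | cons a Q =>
          rw [List.getLast?_cons_cons] at h1
          exact List.mem_of_getLast? h1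
      obtain ⟨P1, r1, P2, hP, hr1, hP2⟩ := split_last (fun x => x ∈ R) P ⟨t1, hPt, ht1R⟩
      obtain ⟨Q1, r2, Q2, hQ, hr2, hQ1⟩ := split_first (fun x => x ∈ R) Q ⟨t2, hQt, ht2R⟩
      have hR'e : R' = P1 ++ (r1 :: ((P2 ++ v :: Q1) ++ [r2])) ++ Q2 := by
        rw [hPQ, hP, hQ]
        simp
      have hR'n := hR'.1.1
      have hR'c := hR'.1.2
      rw [hR'e] at hR'n hR'c
      have hEc : (r1 :: ((P2 ++ v :: Q1) ++ [r2])).IsChain G.Adj :=
        hR'c.left_of_append.right_of_append
      have hEn0 : (r1 :: ((P2 ++ v :: Q1) ++ [r2])).Nodup :=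
        (List.nodup_append.1 (List.nodup_append.1 hR'n).1).2.1
      have hEn : (P2 ++ v :: Q1).Nodup := by
        rw [List.nodup_cons] at hEn0
        exact (List.nodup_append.1 hEn0.2).1
      have hr12 : r1 ≠ r2 := by
        intro h
        rw [List.nodup_cons] at hEn0
        apply hEn0.1
        rw [h]
        simp
      have hER : ∀ x ∈ P2 ++ v :: Q1, x ∉ R := by
        intro x hx
        rw [List.mem_append, List.mem_cons] at hx
        rcases hx with h | h | h
        · exact hP2 x h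
        · rw [h]; exact hvR
        · exact hQ1 x h
      have hEW : ∀ x ∈ P2 ++ v :: Q1, x ∈ W := by
        intro x hx
        apply hR'W
        rw [hR'e]
        simp only [List.mem_append, List.mem_cons] at hx ⊢
        tauto
      have hvE : v ∈ P2 ++ v :: Q1 := by simp
      have hres : ∃ v', ∀ u ∈ D, (∃ l, PF G t1 t2 l ∧ (∀ x ∈ l, x ∈ W) ∧ u ∈ l) →
          u = v ∨ u = v' := by
        rcases split2 hr1 hr2 hr12 with ⟨R0, R1, R2, hRe⟩ | ⟨R0, R1, R2, hRe⟩
        · exact core W D d H1' hDW t1 t2 R hR hRW hRmax v hvD hvR r1 r2 R0 R1 R2 (P2 ++ v :: Q1)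
            hRe hEc hEn hER hEW hvE
        · refine core W D d H1' hDW t1 t2 R hR hRW hRmax v hvD hvR r2 r1 R0 R1 R2
            (P2 ++ v :: Q1).reverse hRe ?_ (List.nodup_reverse.2 hEn)
            (fun x hx => hER x (List.mem_reverse.1 hx)) (fun x hx => hEW x (List.mem_reverse.1 hx))
            (List.mem_reverse.2 hvE)
          have h1 := chain_rev hEc
          have h2 : (r1 :: ((P2 ++ v :: Q1) ++ [r2])).reverse =
              r2 :: ((P2 ++ v :: Q1).reverse ++ [r1]) := by simp
          rw [h2] at h1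
          exact h1
      obtain ⟨v', hv'⟩ := hres
      refine le_trans (Finset.card_le_card (t := {v, v'}) ?_) ((Finset.card_le_two).trans hM)
      intro x hx
      rw [mf] at hx
      rw [Finset.mem_insert, Finset.mem_singleton]
      exact hv' x hx.1 hx.2
  · rw [Finset.filter_false_of_mem]
    · simp
    · rintro x _ ⟨l, h1, h2, _⟩
      exact hex ⟨l, h1, h2⟩

end Pool.Agent.W753.CH.CORE1
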